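import Pool.Agent.Lib.MP_491b55_lc.Pos.Final

/-!
Every stable theory is below every unstable theory in the interpretability order with subscript
`ℵ₁`.  The definitions are in `Pool/Agent/Lib/MP_491b55_lc/Defs.lean`.
-/

open Pool.Agent.Lib.MP_491b55_lc

namespace Pool.Agent.Results.MP_491b55_lc.StableBelowUnstable

/-- **Main theorem.** If `T₀` is stable and `T₁` is unstable then `T₀ ⊴*_{ℵ₁} T₁`. -/
theorem result : ∀ T₀ T₁ : CTheory, T₀.Stable → T₁.Unstable →
    InterpLE (Cardinal.aleph 1) T₀ T₁ := fun T₀ T₁ h₀ h₁ =>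
  Pos.stable_le_unstable T₀ T₁ h₀ h₁

end Pool.Agent.Results.MP_491b55_lc.StableBelowUnstable
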