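import Pool.Agent.Lib.MP_491b55_lc.Final

/-!
# A stable theory which is not below an unstable theory in the interpretability order

There are a stable theory and an unstable theory, both complete and countable, such that the first
is not below the second in the interpretability order with subscript `1`.
-/

namespace Pool.Agent.Results.MP_491b55_lc.StableNotBelow

open Pool.Agent.Lib.MP_491b55_lc

theorem result : ∃ T₀ T₁ : CTheory, T₀.Stable ∧ T₁.Unstable ∧
    ¬ InterpLE 1 T₀ T₁ ∧ ¬ QInterpLE 1 T₀ T₁ :=
  ⟨T0, T1, T0_stable, T1_unstable, not_interpLE, not_qInterpLE⟩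

end Pool.Agent.Results.MP_491b55_lc.StableNotBelow
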